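import Pool.Agent.H38.AB.Targets
import Pool.Agent.H33.RB.GRD

/-!
Module SLE of the board aab_modules (MP_7ecdd4_nt): every triple of large height is in one of the
three classes.
-/

set_option autoImplicit false

open Pool.Agent.H38.RB Pool.Agent.H38.PS Pool.Agent.H38.AB

namespace Pool.Agent.H39.AB

theorem log_pd (G : Finset ℕ) (hG : ∀ p ∈ G, p.Prime) :
    Real.log (pd G : ℝ) = ∑ p ∈ G, Real.log p := by
  unfold pd
  push_cast
  rw [Real.log_prod]
  intro p hp
  exact_mod_cast (hG p hp).ne_zero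

theorem log_tp (G : Finset ℕ) (hG : ∀ p ∈ G, p.Prime) (m : ℕ) :
    Real.log (tp G m : ℝ) = ∑ p ∈ G, (m.factorization p : ℝ) * Real.log p := by
  unfold tp
  push_cast
  rw [Real.log_prod]
  · refine Finset.sum_congr rfl fun p _ => ?_
    rw [Real.log_pow]
  · intro p hp
    have := (hG p hp).ne_zero
    positivity

theorem tp_self {m : ℕ} (hm : m ≠ 0) : tp m.primeFactors m = m := by
  unfold tp
  exact Nat.prod_factorization_pow_eq_self hm

theorem pd_pos (G : Finset ℕ) (hG : ∀ p ∈ G, p.Prime) : 0 < pd G := by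
  unfold pd
  exact Finset.prod_pos fun p hp => (hG p hp).pos

theorem tp_pos (G : Finset ℕ) (hG : ∀ p ∈ G, p.Prime) (m : ℕ) : 0 < tp G m := by
  unfold tp
  exact Finset.prod_pos fun p hp => pow_pos (hG p hp).pos _

/-- the radical of the product -/
theorem pd_pr {x : Fin 3 → ℤ} (hx : Adm x) :
    pd (pr x).primeFactors = pd (x 0).natAbs.primeFactors * pd (x 1).natAbs.primeFactors *
      pd (x 2).natAbs.primeFactors := by
  have h : ∀ i j, i ≠ j → Nat.Coprime (x i).natAbs (x j).natAbs := fun i j hij =>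
    Int.isCoprime_iff_gcd_eq_one.1 (hx.2.1 i j hij)
  have h0 : ∀ i, (x i).natAbs ≠ 0 := fun i => Int.natAbs_ne_zero.2 (hx.1 i)
  have h1 : Nat.Coprime ((x 0).natAbs * (x 1).natAbs) (x 2).natAbs :=
    Nat.Coprime.mul_left (h 0 2 (by decide)) (h 1 2 (by decide))
  unfold pd pr
  rw [Int.natAbs_mul, Int.natAbs_mul, h1.primeFactors_mul, Finset.prod_union,
    (h 0 1 (by decide)).primeFactors_mul, Finset.prod_union]
  · exact (h 0 1 (by decide)).disjoint_primeFactors
  · exact h1.disjoint_primeFactors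

/-- the alternative for one entry -/
theorem alt {N D : ℕ} {l δ₁ A : ℝ} (hN : N ≠ 0) (hl : 0 < l) (hδ : 0 < δ₁) (hδ1 : δ₁ ≤ 1)
    (hA : δ₁ * A = D + 8) (hr : ∑ p ∈ N.primeFactors, Real.log p ≤ l)
    (hlog : A * l ≤ Real.log N) :
    (∃ G ⊆ N.primeFactors, 4 * l ≤ Real.log (tp G N : ℝ) ∧ Real.log (pd G : ℝ) ≤ δ₁ * l) ∨
    ∃ p ∈ N.primeFactors, ((D : ℝ) + 4) * l ≤ (N.factorization p : ℝ) * Real.log p := by
  by_cases h : ∃ p ∈ N.primeFactors, ((D : ℝ) + 4) * l ≤ (N.factorization p : ℝ) * Real.log p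
  · exact Or.inr h
  left
  push Not at h
  have hp : ∀ p ∈ N.primeFactors, p.Prime := fun p hp => Nat.prime_of_mem_primeFactors hp
  obtain ⟨G, hG, h1, h2⟩ := Pool.Agent.H33.RB.GRD N.primeFactors (fun p => Real.log p)
    (fun p => (N.factorization p : ℝ) * Real.log p) l (((D : ℝ) + 4) * l) (δ₁ * l)
    (fun p hp' => Real.log_nonneg (by exact_mod_cast (hp p hp').one_lt.le))
    (fun p hp' => by
      have h3 : 0 < N.factorization p :=
        (hp p hp').factorization_pos_of_dvd hN (Nat.dvd_of_mem_primeFactors hp')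
      have h4 : 0 < Real.log p := Real.log_pos (by exact_mod_cast (hp p hp').one_lt)
      positivity)
    (fun p hp' => (h p hp').le) (by positivity) hr hl (by positivity) (by nlinarith)
  refine ⟨G, hG, ?_, ?_⟩
  · rw [log_tp G (fun p hp' => hp p (hG hp'))]
    refine le_trans ?_ h2
    rw [← log_tp _ hp, tp_self hN]
    have h3 : δ₁ * l / l = δ₁ := by field_simp
    rw [h3]
    nlinarith
  · rw [log_pd G (fun p hp' => hp p (hG hp'))]
    exact h1

theorem le_of_log {a b : ℝ} (ha : 0 < a) (hb : 0 < b) (h : Real.log a ≤ Real.log b) : a ≤ b :=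
  (Real.log_le_log_iff ha hb).1 h

theorem pf_SLE : T_SLE := by
  intro δ hδ
  obtain ⟨D, hD1, hD⟩ : ∃ D : ℕ, 1 ≤ D ∧ 4 / (3 * ((D : ℝ) + 3)) ≤ δ := by
    refine ⟨⌈4 / (3 * δ)⌉₊ + 1, by omega, ?_⟩
    have h1 := Nat.le_ceil (4 / (3 * δ))
    have h2 : (0 : ℝ) < 4 / (3 * δ) := by positivity
    rw [div_le_iff₀ (by positivity)]
    push_cast
    have h3 : 4 / (3 * δ) * (3 * δ) = 4 := by field_simp
    nlinarith
  set κ : ℝ := 4 / (3 * ((D : ℝ) + 3)) with hκ
  have hD1' : (1 : ℝ) ≤ D := by exact_mod_cast hD1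
  have hκ0 : 0 < κ := by positivity
  have hκ1 : κ ≤ 1 / 3 := by
    rw [hκ, div_le_iff₀ (by positivity)]
    linarith
  set δ₁ : ℝ := min δ (1 / 18) with hδ₁
  have hδ₁0 : 0 < δ₁ := lt_min hδ (by norm_num)
  have hδ₁1 : δ₁ ≤ 1 / 18 := min_le_right _ _
  set A : ℝ := ((D : ℝ) + 8) / δ₁ with hA
  have hA0 : 0 ≤ A := by positivity
  have hAδ : δ₁ * A = D + 8 := by
    rw [hA]
    field_simp
  refine ⟨D, A + 6, hD1, by linarith, ?_⟩
  intro X x hX hx hpd hht
  by_cases hPA : PA X x
  · exact Or.inl hPA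
  right
  have hX0 : (0 : ℝ) < X := by linarith
  set l : ℝ := Real.log X with hl
  have hl0 : 0 < l := Real.log_pos (by linarith)
  have hN : ∀ i, (x i).natAbs ≠ 0 := fun i => Int.natAbs_ne_zero.2 (hx.1 i)
  have hpr : ∀ i, ∀ p ∈ (x i).natAbs.primeFactors, p.Prime :=
    fun i p hp => Nat.prime_of_mem_primeFactors hp
  have hw0 : ∀ i, 0 ≤ Real.log (pd (x i).natAbs.primeFactors : ℝ) := fun i =>
    Real.log_nonneg (by exact_mod_cast pd_pos _ (hpr i))
  have hW : Real.log (pd (pr x).primeFactors : ℝ) =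
      Real.log (pd (x 0).natAbs.primeFactors : ℝ) + Real.log (pd (x 1).natAbs.primeFactors : ℝ) +
      Real.log (pd (x 2).natAbs.primeFactors : ℝ) := by
    rw [pd_pr hx]
    push_cast
    have h1 : ∀ i, (pd (x i).natAbs.primeFactors : ℝ) ≠ 0 := fun i => by
      exact_mod_cast (pd_pos _ (hpr i)).ne'
    rw [Real.log_mul (mul_ne_zero (h1 0) (h1 1)) (h1 2), Real.log_mul (h1 0) (h1 1)]
  have hprp : 0 < pd (pr x).primeFactors :=
    pd_pos _ fun p hp => Nat.prime_of_mem_primeFactors hp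
  have hWl : Real.log (pd (pr x).primeFactors : ℝ) ≤ l :=
    Real.log_le_log (by exact_mod_cast hprp) hpd
  have hwl : ∀ i, Real.log (pd (x i).natAbs.primeFactors : ℝ) ≤ l := by
    have h0 := hw0 0
    have h1 := hw0 1
    have h2 := hw0 2
    intro i
    fin_cases i
    · show Real.log (pd (x 0).natAbs.primeFactors : ℝ) ≤ l
      linarith
    · show Real.log (pd (x 1).natAbs.primeFactors : ℝ) ≤ l
      linarith
    · show Real.log (pd (x 2).natAbs.primeFactors : ℝ) ≤ l
      linarith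
  -- all entries are large
  have hlog : ∀ i, A * l ≤ Real.log (x i).natAbs := by
    intro i
    by_contra hlt
    push Not at hlt
    apply hPA
    refine ⟨i, ?_⟩
    have h1 : (0 : ℝ) < (x i).natAbs := by exact_mod_cast Nat.pos_of_ne_zero (hN i)
    have h2 : (0 : ℝ) < ht x := by
      have : (x 0).natAbs ≤ ht x := le_max_left _ _
      have h3 := Nat.pos_of_ne_zero (hN 0)
      exact_mod_cast lt_of_lt_of_le h3 this
    refine le_of_log (by positivity) h2 ?_
    rw [Real.log_mul h1.ne' (by positivity), Real.log_pow]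
    push_cast
    nlinarith
  have hlX : Real.log (X ^ (5 / 9 + δ)) = (5 / 9 + δ) * l := Real.log_rpow hX0 _
  have hZ0 : 0 < X ^ (5 / 9 + δ) := Real.rpow_pos_of_pos hX0 _
  -- the criterion for `PE`
  have hPE : ∀ (a b c : Fin 3) (G : Finset ℕ), a ≠ b → a ≠ c → b ≠ c →
      G ⊆ (x a).natAbs.primeFactors → 4 * l ≤ Real.log (tp G (x a).natAbs : ℝ) →
      Real.log (pd G : ℝ) + (Real.log (pd (x b).natAbs.primeFactors : ℝ) +
        Real.log (pd (x c).natAbs.primeFactors : ℝ)) / 2 ≤ (5 / 9 + δ) * l →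
      PE X (X ^ (5 / 9 + δ)) x := by
    intro a b c G hab hac hbc hG h1 h2
    have hGp : ∀ p ∈ G, p.Prime := fun p hp => hpr a p (hG hp)
    have e1 : (0 : ℝ) < pd G := by exact_mod_cast pd_pos G hGp
    have e2 : (0 : ℝ) < pd (x b).natAbs.primeFactors := by exact_mod_cast pd_pos _ (hpr b)
    have e3 : (0 : ℝ) < pd (x c).natAbs.primeFactors := by exact_mod_cast pd_pos _ (hpr c)
    have e4 : (0 : ℝ) < tp G (x a).natAbs := by exact_mod_cast tp_pos G hGp _
    refine ⟨a, b, c, G, hab, hac, hbc, hG, ?_, ?_⟩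
    · refine le_of_log (by positivity) e4 ?_
      rw [Real.log_pow]
      exact h1
    · refine le_of_log (by positivity) hZ0 ?_
      rw [hlX, Real.log_mul e1.ne' (by positivity), Real.log_sqrt (by positivity),
        Real.log_mul e2.ne' e3.ne']
      exact h2
  have halt : ∀ i, (∃ G ⊆ (x i).natAbs.primeFactors,
      4 * l ≤ Real.log (tp G (x i).natAbs : ℝ) ∧ Real.log (pd G : ℝ) ≤ δ₁ * l) ∨
      ∃ p ∈ (x i).natAbs.primeFactors,
        ((D : ℝ) + 4) * l ≤ ((x i).natAbs.factorization p : ℝ) * Real.log p := by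
    intro i
    refine alt (hN i) hl0 hδ₁0 (by linarith) hAδ ?_ (hlog i)
    rw [← log_pd _ (hpr i)]
    exact hwl i
  by_cases hα : ∃ i, ∃ G ⊆ (x i).natAbs.primeFactors,
      4 * l ≤ Real.log (tp G (x i).natAbs : ℝ) ∧ Real.log (pd G : ℝ) ≤ δ₁ * l
  · left
    obtain ⟨i, G, hG, h1, h2⟩ := hα
    have h0' := hw0 0
    have h1' := hw0 1
    have h2' := hw0 2
    fin_cases i
    · refine hPE 0 1 2 G (by decide) (by decide) (by decide) hG h1 ?_
      nlinarith
    · refine hPE 1 0 2 G (by decide) (by decide) (by decide) hG h1 ?_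
      nlinarith
    · refine hPE 2 0 1 G (by decide) (by decide) (by decide) hG h1 ?_
      nlinarith
  -- now every entry has a prime with a large exponent
  have hβ : ∀ i, ∃ p ∈ (x i).natAbs.primeFactors,
      ((D : ℝ) + 4) * l ≤ ((x i).natAbs.factorization p : ℝ) * Real.log p := by
    intro i
    rcases halt i with h | h
    · exact absurd ⟨i, h⟩ hα
    · exact h
  choose p hpm hpv using hβ
  have hpp : ∀ i, (p i).Prime := fun i => hpr i _ (hpm i)
  have hp0 : ∀ i, (0 : ℝ) < p i := fun i => by exact_mod_cast (hpp i).pos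
  have hh0 : ∀ i, 0 < Real.log (p i) := fun i =>
    Real.log_pos (by exact_mod_cast (hpp i).one_lt)
  have hhw : ∀ i, Real.log (p i) ≤ Real.log (pd (x i).natAbs.primeFactors : ℝ) := by
    intro i
    rw [log_pd _ (hpr i)]
    exact Finset.single_le_sum (f := fun q : ℕ => Real.log q)
      (fun q hq => Real.log_nonneg (by exact_mod_cast (hpr i q hq).one_lt.le)) (hpm i)
  have hDv : ∀ i, D < (x i).natAbs.factorization (p i) := by
    intro i
    have h1 := hpv i
    have h2 := (hhw i).trans (hwl i)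
    by_contra hlt
    push Not at hlt
    have h3 : ((x i).natAbs.factorization (p i) : ℝ) ≤ D := by exact_mod_cast hlt
    have h4 : ((x i).natAbs.factorization (p i) : ℝ) * Real.log (p i) ≤ D * l := by
      have := hh0 i
      gcongr
    nlinarith
  have hPE' : ∀ a b c : Fin 3, a ≠ b → a ≠ c → b ≠ c →
      Real.log (p a) + (Real.log (pd (x b).natAbs.primeFactors : ℝ) +
        Real.log (pd (x c).natAbs.primeFactors : ℝ)) / 2 ≤ (5 / 9 + δ) * l →
      PE X (X ^ (5 / 9 + δ)) x := by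
    intro a b c hab hac hbc h
    refine hPE a b c {p a} hab hac hbc (Finset.singleton_subset_iff.2 (hpm a)) ?_ ?_
    · rw [log_tp _ (by intro q hq; rw [Finset.mem_singleton.1 hq]; exact hpp a),
        Finset.sum_singleton]
      have := hpv a
      nlinarith
    · rw [log_pd _ (by intro q hq; rw [Finset.mem_singleton.1 hq]; exact hpp a),
        Finset.sum_singleton]
      exact h
  have hPJ : ∀ a b : Fin 3, a ≠ b →
      Real.log (pd (pr x).primeFactors : ℝ) - (1 - κ) * (Real.log (p a) + Real.log (p b)) ≤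
        (5 / 9 + δ) * l → PJ D (X ^ (5 / 9 + δ)) x := by
    intro a b hab h
    refine ⟨a, b, p a, p b, hab, hpp a, hpp b, hDv a, hDv b, ?_⟩
    have e1 : (0 : ℝ) < pd (pr x).primeFactors := by exact_mod_cast hprp
    have e2 := hp0 a
    have e3 := hp0 b
    refine le_of_log (by positivity) (by positivity) ?_
    rw [Real.log_mul e1.ne' (by positivity), Real.log_rpow (by positivity),
      Real.log_mul hZ0.ne' (by positivity), Real.log_mul e2.ne' e3.ne', hlX, ← hκ]
    linarith
  by_contra hcon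
  rw [not_or] at hcon
  have q0 := lt_of_not_ge fun h => hcon.1 (hPE' 0 1 2 (by decide) (by decide) (by decide) h)
  have q1 := lt_of_not_ge fun h => hcon.1 (hPE' 1 0 2 (by decide) (by decide) (by decide) h)
  have q2 := lt_of_not_ge fun h => hcon.1 (hPE' 2 0 1 (by decide) (by decide) (by decide) h)
  have r0 := lt_of_not_ge fun h => hcon.2 (hPJ 0 1 (by decide) h)
  have r1 := lt_of_not_ge fun h => hcon.2 (hPJ 0 2 (by decide) h)
  have r2 := lt_of_not_ge fun h => hcon.2 (hPJ 1 2 (by decide) h)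
  set H : ℝ := Real.log (p 0) + Real.log (p 1) + Real.log (p 2) with hH
  set W : ℝ := Real.log (pd (pr x).primeFactors : ℝ) with hWdef
  have s1 : 3 * ((5 / 9 + δ) * l) < H + W := by rw [hW, hH]; linarith
  have s2 : 3 * ((5 / 9 + δ) * l) < 3 * W - 2 * (1 - κ) * H := by rw [hH]; linarith
  have s3 : (1 - κ) * (3 * ((5 / 9 + δ) * l) - W) ≤ (1 - κ) * H := by
    apply mul_le_mul_of_nonneg_left _ (by linarith)
    linarith
  have s4 : (5 - 2 * κ) * W ≤ (5 - 2 * κ) * l := mul_le_mul_of_nonneg_left hWl (by linarith)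
  have s5 : (5 / 9 + δ) * (9 - 6 * κ) * l < (5 - 2 * κ) * l := by nlinarith
  have s6 : (5 / 9 + δ) * (9 - 6 * κ) < 5 - 2 * κ := lt_of_mul_lt_mul_right s5 hl0.le
  have s7 : κ * (9 - 6 * κ) ≤ δ * (9 - 6 * κ) := mul_le_mul_of_nonneg_right hD (by linarith)
  nlinarith

end Pool.Agent.H39.AB
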